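import Pool.Agent.X98.KZ.Point
import Pool.Agent.TH295.FO.Rat

set_option autoImplicit false

/-!
# One point suffices: the global statement
-/

namespace Pool.Agent.X98.KZ

open Polynomial

universe u v w

/-- `M` is diagonalizable over the field of fractions, with rational eigenvalues. -/
def DiagRat {R : Type*} [CommRing R] {r : Type*} [Fintype r] [DecidableEq r]
    (M : Matrix r r R) : Prop :=
  ∃ (N : ℕ) (S : Finset ℤ), 0 < N ∧ aeval ((N : R) • M) (∏ s ∈ S, (X - C s) : ℤ[X]) = 0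

/-- At the closed points of a nonempty open subset of `Spec R`. -/
def AlmostAll (R : Type*) [CommRing R] (Q : Ideal R → ℕ → Prop) : Prop :=
  ∃ g : R, g ≠ 0 ∧ ∀ 𝔪 : Ideal R, 𝔪.IsMaximal → g ∉ 𝔪 → ∀ p : ℕ, p.Prime → (p : R) ∈ 𝔪 → Q 𝔪 p

/-- The polynomial `X ^ p - X` as a product. -/
noncomputable def hh (k : Type*) [CommRing k] (p : ℕ) : k[X] :=
  ∏ m ∈ Finset.range p, (X + C (m : k))

lemma hh_eq {k : Type*} [CommRing k] (p : ℕ) : hh k p = ∏ m ∈ Finset.range p, (X - C (-(m : k))) :=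
  Finset.prod_congr rfl fun m _ => by rw [C_neg, sub_neg_eq_add]

lemma hh_sep {k : Type*} [Field k] {p : ℕ} [CharP k p] : (hh k p).Separable := by
  rw [hh_eq, separable_prod_X_sub_C_iff']
  intro a ha b hb hab
  have h1 : ((a : ℕ) : k) = b := neg_injective hab
  rw [CharP.natCast_eq_natCast k p] at h1
  rw [Finset.mem_range] at ha hb
  exact Nat.ModEq.eq_of_lt_of_lt h1 ha hb

variable {ι : Type*} [Fintype ι] [DecidableEq ι] {r : Type*} [Fintype r] [DecidableEq r]

lemma aeval_map_matrix {R S : Type*} [CommRing R] [CommRing S] (φ : R →+* S) (M : Matrix r r R)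
    (f : R[X]) : aeval (M.map φ) (f.map φ) = (aeval M f).map φ := by
  induction f using Polynomial.induction_on' with
  | add p q hp hq =>
    rw [Polynomial.map_add, map_add, map_add, hp, hq, Matrix.map_add _ (map_add φ)]
  | monomial n a =>
    rw [Polynomial.map_monomial, aeval_monomial, aeval_monomial, Matrix.map_mul]
    congr 1
    · ext i j
      rw [Matrix.map_apply, Matrix.algebraMap_matrix_apply, Matrix.algebraMap_matrix_apply]
      split_ifs <;> simp
    · exact ((φ.mapMatrix : Matrix r r R →+* Matrix r r S).map_pow M n).symm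

lemma aeval_int {R : Type*} [CommRing R] (M : Matrix r r R) (N : ℕ) (f : ℤ[X]) :
    aeval ((N : R) • M) f =
      aeval M ((f.map (Int.castRingHom R)).comp (C (N : R) * X)) := by
  have h1 : aeval M ((f.map (Int.castRingHom R)).comp (C (N : R) * X)) =
      aeval ((N : R) • M) (f.map (Int.castRingHom R)) := by
    rw [aeval_comp, map_mul, aeval_C, aeval_X, Algebra.algebraMap_eq_smul_one, smul_mul_assoc,
      one_mul]
  rw [h1, aeval_map_algebraMap' (f := f)]
where
  aeval_map_algebraMap' {f : ℤ[X]} : aeval ((N : R) • M) (f.map (Int.castRingHom R)) =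
      aeval ((N : R) • M) f := by
    have : Int.castRingHom R = algebraMap ℤ R := rfl
    rw [this, aeval_map_algebraMap]

/-- The polynomial `∏ (N X - s)`. -/
noncomputable def fN (R : Type*) [CommRing R] (N : ℕ) (S : Finset ℤ) : R[X] :=
  ∏ s ∈ S, (C (N : R) * X - C (s : R))

lemma comp_fN {R : Type*} [CommRing R] (N : ℕ) (S : Finset ℤ) :
    ((∏ s ∈ S, (X - C s) : ℤ[X]).map (Int.castRingHom R)).comp (C (N : R) * X) = fN R N S := by
  rw [Polynomial.map_prod, prod_comp, fN]
  refine Finset.prod_congr rfl fun s _ => ?_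
  simp

lemma fN_map {R S' : Type*} [CommRing R] [CommRing S'] (φ : R →+* S') (N : ℕ) (S : Finset ℤ) :
    (fN R N S).map φ = fN S' N S := by
  rw [fN, fN, Polynomial.map_prod]
  refine Finset.prod_congr rfl fun s _ => ?_
  simp

lemma diagRat_iff {R : Type*} [CommRing R] (M : Matrix r r R) :
    DiagRat M ↔ ∃ (N : ℕ) (S : Finset ℤ), 0 < N ∧ aeval M (fN R N S) = 0 := by
  unfold DiagRat
  simp only [aeval_int, comp_fN]

/-- Reduction modulo large primes. -/
lemma diag_mod {R : Type*} [CommRing R] [IsDomain R] [CharZero R] {M : Matrix r r R}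
    (h : DiagRat M) : ∃ g : R, g ≠ 0 ∧ ∀ (k : Type w) [Field k] (φ : R →+* k) (p : ℕ), p.Prime →
      CharP k p → φ g ≠ 0 → aeval (M.map φ) (hh k p) = 0 := by
  classical
  rw [diagRat_iff] at h
  obtain ⟨N, S, hN, hNS⟩ := h
  refine ⟨(N : R) * ∏ st ∈ S.offDiag, ((st.1 - st.2 : ℤ) : R), ?_, ?_⟩
  · apply mul_ne_zero
    · exact_mod_cast hN.ne'
    · rw [Finset.prod_ne_zero_iff]
      intro st hst
      rw [Finset.mem_offDiag] at hst
      exact_mod_cast sub_ne_zero.mpr hst.2.2
  intro k _ φ p hp hchar hg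
  have hN' : (N : k) ≠ 0 := by
    intro h0
    apply hg
    rw [map_mul, map_natCast, h0, zero_mul]
  have hS : ∀ s ∈ S, ∀ t ∈ S, (s : k) = t → s = t := by
    intro s hs t ht hst
    by_contra hne
    apply hg
    rw [map_mul, map_prod, Finset.prod_eq_zero (i := (s, t)) (Finset.mem_offDiag.mpr ⟨hs, ht, hne⟩),
      mul_zero]
    rw [map_intCast]
    push_cast
    rw [hst, sub_self]
  have h1 : aeval (M.map φ) (fN k N S) = 0 := by
    rw [← fN_map φ, aeval_map_matrix, hNS]
    ext; simp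
  -- the factors
  have hfact : Fact p.Prime := ⟨hp⟩
  have hm : ∀ s : ℤ, ∃ m : ℕ, m < p ∧ (N : k) * (m : k) = -(s : k) := by
    intro s
    have hNp : ((N : ℤ) : ZMod p) ≠ 0 := by
      intro h0
      apply hN'
      rw [ZMod.intCast_zmod_eq_zero_iff_dvd] at h0
      have := (CharP.intCast_eq_zero_iff k p _).mpr h0
      exact_mod_cast this
    refine ⟨((-(s : ZMod p)) / ((N : ℕ) : ZMod p)).val, ZMod.val_lt _, ?_⟩
    have h2 : (((N : ℤ) * (((-(s : ZMod p)) / ((N : ℕ) : ZMod p)).val : ℤ) + s : ℤ) : ZMod p) = 0 := by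
      push_cast
      rw [ZMod.natCast_val, ZMod.cast_id']
      have h3 : ((N : ℕ) : ZMod p) ≠ 0 := by exact_mod_cast hNp
      rw [id_eq, mul_div_cancel₀ _ h3]
      ring
    rw [ZMod.intCast_zmod_eq_zero_iff_dvd] at h2
    have h3 := (CharP.intCast_eq_zero_iff k p _).mpr h2
    push_cast at h3
    exact eq_neg_of_add_eq_zero_left h3
  choose m hm1 hm2 using hm
  have hinj : Set.InjOn m S := by
    intro s hs t ht hst
    apply hS s hs t ht
    have := hm2 s
    rw [hst, hm2 t] at this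
    exact (neg_injective this).symm
  have h2 : fN k N S = C ((N : k) ^ S.card) * ∏ j ∈ S.image m, (X + C (j : k)) := by
    rw [Finset.prod_image hinj, fN, C_pow, ← Finset.prod_const, ← Finset.prod_mul_distrib]
    refine Finset.prod_congr rfl fun s _ => ?_
    rw [mul_add, ← C_mul, hm2 s, C_neg, sub_eq_add_neg]
  obtain ⟨q, hq⟩ : (∏ j ∈ S.image m, (X + C (j : k))) ∣ hh k p := by
    apply Finset.prod_dvd_prod_of_subset
    intro j hj
    obtain ⟨s, _, rfl⟩ := Finset.mem_image.mp hj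
    exact Finset.mem_range.mpr (hm1 s)
  have h3 : fN k N S ∣ hh k p := by
    refine ⟨C (((N : k) ^ S.card)⁻¹) * q, ?_⟩
    rw [h2, hq]
    have h4 : (C ((N : k) ^ S.card) : k[X]) * C (((N : k) ^ S.card)⁻¹) = 1 := by
      rw [← C_mul, mul_inv_cancel₀ (pow_ne_zero _ hN'), C_1]
    linear_combination (-(∏ j ∈ S.image m, (X + C (j : k))) * q) * h4
  obtain ⟨q', hq'⟩ := h3
  rw [hq', map_mul, h1, zero_mul]

/-- A matrix whose reductions are killed by `X ^ p - X` is diagonalizable with rational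
eigenvalues. -/
lemma diag_of_mod {R : Type u} [CommRing R] [IsDomain R] [CharZero R] [Algebra.FiniteType ℤ R]
    {n : ℕ} (M : Matrix (Fin n) (Fin n) R) {g : R} (hg : g ≠ 0)
    (h : ∀ (𝔪 : Ideal R) [𝔪.IsMaximal], g ∉ 𝔪 → ∀ p : ℕ, p.Prime → (p : R) ∈ 𝔪 →
      aeval (M.map (Ideal.Quotient.mk 𝔪)) (hh (R ⧸ 𝔪) p) = 0) : DiagRat M := by
  classical
  rw [diagRat_iff]
  let F := AlgebraicClosure (FractionRing R)
  have hinj : Function.Injective (algebraMap R F) := by
    rw [IsScalarTower.algebraMap_eq R (FractionRing R) F]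
    exact (algebraMap (FractionRing R) F).injective.comp (IsFractionRing.injective R _)
  have hchar : CharZero F := charZero_of_injective_algebraMap hinj
  set χ := M.charpoly.map (algebraMap R F) with hχ
  have hroot : ∀ θ, ∃ q : ℚ, χ.IsRoot θ → θ = (q : F) := by
    intro θ
    by_cases hθ : χ.IsRoot θ
    · obtain ⟨q, hq⟩ := Pool.Agent.TH295.FO.root_rational M hg h hinj hθ
      exact ⟨q, fun _ => hq⟩
    · exact ⟨0, fun h' => absurd h' hθ⟩
  choose q hq using hroot
  set T := χ.roots.toFinset with hT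
  have hχm : χ.Monic := (Matrix.charpoly_monic M).map _
  have hTq : ∀ θ ∈ T, θ = (q θ : F) := by
    intro θ hθ
    rw [hT, Multiset.mem_toFinset, mem_roots hχm.ne_zero] at hθ
    exact hq θ hθ
  set N : ℕ := ∏ θ ∈ T, (q θ).den with hN
  have hNpos : 0 < N := Finset.prod_pos fun θ _ => (q θ).den_pos
  have hint : ∀ θ, ∃ z : ℤ, θ ∈ T → (N : ℚ) * q θ = z := by
    intro θ
    by_cases hθ : θ ∈ T
    · obtain ⟨t, ht⟩ := Finset.dvd_prod_of_mem (fun θ => (q θ).den) hθ
      refine ⟨t * (q θ).num, fun _ => ?_⟩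
      rw [hN, ht]
      push_cast
      rw [mul_comm ((q θ).den : ℚ), mul_assoc, Rat.den_mul_eq_num]
    · exact ⟨0, fun h' => absurd h' hθ⟩
  choose a ha using hint
  have haF : ∀ θ ∈ T, (a θ : F) = N * θ := by
    intro θ hθ
    have h1 := congrArg (fun x : ℚ => (x : F)) (ha θ hθ)
    push_cast at h1
    rw [← h1, ← hTq θ hθ]
  have hNF : (N : F) ≠ 0 := by exact_mod_cast hNpos.ne'
  have hainj : Set.InjOn a T := by
    intro θ hθ θ' hθ' h1
    have h2 := haF θ hθ
    rw [h1, haF θ' hθ'] at h2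
    exact (mul_left_cancel₀ hNF h2).symm
  refine ⟨N, T.image a, hNpos, ?_⟩
  -- divisibility
  have hdvd : M.charpoly ∣ (fN R N (T.image a)) ^ (Multiset.card χ.roots) := by
    rw [← Polynomial.map_dvd_map (algebraMap R F) hinj (Matrix.charpoly_monic M),
      Polynomial.map_pow, fN_map]
    have h1 : fN F N (T.image a) = C ((N : F) ^ T.card) * ∏ θ ∈ T, (X - C θ) := by
      rw [fN, Finset.prod_image hainj, C_pow, ← Finset.prod_const, ← Finset.prod_mul_distrib]
      refine Finset.prod_congr rfl fun θ hθ => ?_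
      rw [haF θ hθ, mul_sub, C_mul]
    have h2 : χ = (χ.roots.map fun θ => X - C θ).prod := by
      have := (IsAlgClosed.splits χ).eq_prod_roots
      rw [hχm.leadingCoeff, C_1, one_mul] at this
      exact this
    show χ ∣ _
    conv_lhs => rw [h2]
    have h3 : ∀ s : Multiset F, (∀ θ ∈ s, θ ∈ T) →
        (s.map fun θ => X - C θ).prod ∣ (fN F N (T.image a)) ^ (Multiset.card s) := by
      intro s
      induction s using Multiset.induction_on with
      | empty => intro _; simp
      | cons θ s ih =>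
        intro hs
        rw [Multiset.map_cons, Multiset.prod_cons, Multiset.card_cons, pow_succ, mul_comm]
        refine mul_dvd_mul (ih fun x hx => hs x (Multiset.mem_cons_of_mem hx)) ?_
        rw [h1]
        exact (Finset.dvd_prod_of_mem (fun θ => X - C θ) (hs θ (Multiset.mem_cons_self θ s))).trans
          (Dvd.intro_left _ rfl)
    exact h3 _ fun θ hθ => Multiset.mem_toFinset.mpr hθ
  by_contra hB
  obtain ⟨i, j, hij⟩ : ∃ i j, (aeval M (fN R N (T.image a))) i j ≠ 0 := by
    by_contra hcon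
    push Not at hcon
    exact hB (Matrix.ext hcon)
  obtain ⟨P₁, hP₁⟩ := Pool.Agent.W432.PC.exists_closed_point R (mul_ne_zero hg hij)
  obtain ⟨p, hple, hp⟩ := Nat.exists_infinite_primes (P₁ + 1)
  obtain ⟨𝔪, hmax, hpm, hgm⟩ := hP₁ p hp (by omega)
  have hg1 : g ∉ 𝔪 := fun h' => hgm (𝔪.mul_mem_right _ h')
  have hb1 : (aeval M (fN R N (T.image a))) i j ∉ 𝔪 := fun h' => hgm (𝔪.mul_mem_left _ h')
  apply hb1
  rw [← Ideal.Quotient.eq_zero_iff_mem]
  let ifld : Field (R ⧸ 𝔪) := Ideal.Quotient.field 𝔪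
  have hcp : CharP (R ⧸ 𝔪) p := Pool.Agent.TH295.FO.charP_quot' 𝔪 hp hpm
  set Mb := M.map (Ideal.Quotient.mk 𝔪) with hMb
  have h1 : aeval Mb (hh (R ⧸ 𝔪) p) = 0 := h 𝔪 hg1 p hp hpm
  have h2 : aeval Mb ((fN (R ⧸ 𝔪) N (T.image a)) ^ (Multiset.card χ.roots)) = 0 := by
    obtain ⟨c, hc⟩ := hdvd
    have h3 := congrArg (Polynomial.map (Ideal.Quotient.mk 𝔪)) hc
    rw [Polynomial.map_pow, fN_map, Polynomial.map_mul] at h3
    rw [h3, map_mul, ← Matrix.charpoly_map]
    have h4 := Matrix.aeval_self_charpoly Mb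
    rw [h4, zero_mul]
  have h3 : aeval Mb (fN (R ⧸ 𝔪) N (T.image a)) = 0 := by
    rw [← minpoly.dvd_iff] at h1 h2 ⊢
    rcases Nat.eq_zero_or_pos (Multiset.card χ.roots) with h0 | h0
    · rw [h0, pow_zero] at h2
      exact h2.trans (one_dvd _)
    · exact (Squarefree.dvd_pow_iff_dvd (hh_sep.squarefree.squarefree_of_dvd h1) h0.ne').mp h2
  have h4 : (aeval M (fN R N (T.image a))).map (Ideal.Quotient.mk 𝔪) = 0 := by
    rw [← aeval_map_matrix, fN_map]
    exact h3
  exact congrFun (congrFun h4 i) j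

/-! ### Base change -/

lemma P_map {k k' : Type*} [CommRing k] [CommRing k'] (φ : k →+* k') (A : ι → Matrix r r k)
    (j : ℕ) : P (fun i => (A i).map φ) j = (P A j).map (MvPolynomial.map φ) := by
  induction j with
  | zero => rw [P, P, Matrix.map_one _ (map_zero _) (map_one _)]
  | succ j ih =>
    rw [P, P, ih, Matrix.map_add _ (map_add _), Matrix.map_mul]
    congr 1
    · ext1 x y
      simp only [Matrix.map_apply, V_apply, map_sum, map_mul, map_pow, MvPolynomial.map_X,
        MvPolynomial.pderiv_map]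
    · congr 1
      ext1 x y
      simp only [Matrix.map_apply, Matrix.sum_apply, map_sum, Matrix.smul_apply, smul_eq_mul,
        map_mul, MvPolynomial.map_X, MvPolynomial.map_C]

lemma curv_map {k k' : Type*} [CommRing k] [CommRing k'] (φ : k →+* k') (A : ι → Matrix r r k)
    (z : ι → k) (j : ℕ) : curv (fun i => (A i).map φ) (fun i => φ (z i)) j =
      (curv A z j).map (Polynomial.map φ) := by
  rw [curv_eq, curv_eq, P_map]
  ext1 x y
  simp only [Matrix.map_apply, th, MvPolynomial.aeval_def]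
  rw [MvPolynomial.eval₂_map]
  have h1 : (mapRingHom φ).comp (MvPolynomial.eval₂Hom (algebraMap k k[X]) fun i => -Tc z i) =
      MvPolynomial.eval₂Hom ((algebraMap k' k'[X]).comp φ) fun i => -Tc (fun i => φ (z i)) i := by
    apply MvPolynomial.ringHom_ext
    · intro c
      simp
    · intro i
      simp [Tc, Polynomial.map_prod]
  exact (congrArg (fun g : MvPolynomial ι k →+* k'[X] => g (P A j x y)) h1).symm

lemma KZType.map {R S : Type*} [CommRing R] [CommRing S] (φ : R →+* S) {A : ι → Matrix r r R}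
    (h : KZType A) : KZType (fun i => (A i).map φ) := by
  intro i j hij
  obtain ⟨W, h1, h2, h3⟩ := h i j hij
  refine ⟨W.map φ, fun l hl hl' => ?_, ?_, ?_⟩
  · rw [← Matrix.map_mul, ← Matrix.map_mul, h1 l hl hl']
  · rw [← Matrix.map_add _ (map_add φ), ← Matrix.map_mul, ← Matrix.map_mul, h2]
  · rw [← Matrix.map_add _ (map_add φ), ← Matrix.map_mul, ← Matrix.map_mul, h3]

lemma eval_scale {k : Type*} [CommRing k] {f : MvPolynomial ι k} {j : ℕ} (h : f.IsHomogeneous j)
    (t : k) (v : ι → k) :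
    MvPolynomial.eval (fun i => t * v i) f = t ^ j * MvPolynomial.eval v f := by
  rw [MvPolynomial.eval_eq', MvPolynomial.eval_eq', Finset.mul_sum]
  refine Finset.sum_congr rfl fun d hd => ?_
  have h1 := h (MvPolynomial.mem_support_iff.mp hd)
  rw [Finsupp.weight_apply, Finsupp.sum_fintype _ _ (by simp)] at h1
  have h2 : ∑ i, d i = j := by simpa using h1
  simp only [mul_pow, Finset.prod_mul_distrib]
  rw [Finset.prod_pow_eq_pow_sum, h2]
  ring

/-- If the p-curvature of one member vanishes identically, then its residues are killed by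
`X ^ p - X`. -/
lemma residue_of_curv {k : Type*} [Field k] {p : ℕ} (A : ι → Matrix r r k) (z : ι → k)
    (hz : Function.Injective z) (h : curv A z p = 0) (i : ι) : aeval (A i) (hh k p) = 0 := by
  rw [curv_eq] at h
  have hc : (Tc z i).eval (z i) ≠ 0 := by
    rw [Tc, eval_prod, Finset.prod_ne_zero_iff]
    intro l hl
    rw [eval_sub, eval_X, eval_C]
    exact sub_ne_zero.mpr fun h' => Finset.ne_of_mem_erase hl (hz h').symm
  have h0 : ∀ l, l ≠ i → (Tc z l).eval (z i) = 0 := by
    intro l hl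
    rw [Tc, eval_prod, Finset.prod_eq_zero (Finset.mem_erase.mpr ⟨Ne.symm hl, Finset.mem_univ i⟩)]
    rw [eval_sub, eval_X, eval_C, sub_self]
  have h1 := P_eval A {i} p
  rw [Finset.sum_singleton] at h1
  rw [hh, ← h1]
  ext1 x y
  rw [Matrix.map_apply]
  have h2 := congrArg (Polynomial.eval (z i)) (congrFun (congrFun h x) y)
  rw [Matrix.map_apply, Matrix.zero_apply, eval_zero] at h2
  have h3 : Polynomial.eval (z i) (th z (P A p x y)) =
      MvPolynomial.eval (fun l => (-(Tc z i).eval (z i)) * (if l ∈ ({i} : Finset ι) then 1 else 0))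
        (P A p x y) := by
    have h4 : ((evalRingHom (z i)).comp (th z : MvPolynomial ι k →+* k[X])) =
        MvPolynomial.eval (fun l => (-(Tc z i).eval (z i)) *
          (if l ∈ ({i} : Finset ι) then 1 else 0)) := by
      apply MvPolynomial.ringHom_ext
      · intro c
        simp [th]
      · intro l
        rw [RingHom.comp_apply, MvPolynomial.eval_X]
        show eval (z i) (th z (MvPolynomial.X l)) = _
        rw [th, MvPolynomial.aeval_X, eval_neg]
        by_cases hl : l = i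
        · subst hl
          rw [if_pos (Finset.mem_singleton_self _), mul_one]
        · rw [if_neg (by rw [Finset.mem_singleton]; exact hl), mul_zero, h0 l hl, neg_zero]
    exact congrArg (fun g : MvPolynomial ι k →+* k => g (P A p x y)) h4
  rw [h3, eval_scale (P_homog A p x y)] at h2
  exact (mul_eq_zero.mp h2).resolve_left (pow_ne_zero _ (neg_ne_zero.mpr hc))

lemma P_of_point {k : Type*} [Field k] {p : ℕ} (hp : p.Prime) [CharP k p]
    (A : ι → Matrix r r k) (hKZ : KZType A) (hA : ∀ i, aeval (A i) (hh k p) = 0) (z : ι → k)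
    (hz : Function.Injective z) (x₀ : k) (hx : ∀ i, x₀ ≠ z i)
    (h : (curv A z p).map (Polynomial.eval x₀) = 0) : P A p = 0 := by
  have hT : ∀ l, (x₀ - z l) * (Tc z l).eval x₀ = ∏ i, (x₀ - z i) := by
    intro l
    rw [Tc, eval_prod, ← Finset.mul_prod_erase Finset.univ (fun i => x₀ - z i) (Finset.mem_univ l)]
    congr 1
    refine Finset.prod_congr rfl fun i _ => ?_
    rw [eval_sub, eval_X, eval_C]
  have hT0 : ∏ i, (x₀ - z i) ≠ 0 := Finset.prod_ne_zero_iff.mpr fun i _ => sub_ne_zero.mpr (hx i)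
  have hne : ∀ l, (Tc z l).eval x₀ ≠ 0 := by
    intro l h0
    apply hT0
    rw [← hT l, h0, mul_zero]
  refine P_eq_zero hp A hKZ (fun l => -(Tc z l).eval x₀) (fun l => neg_ne_zero.mpr (hne l)) ?_ ?_ hA
  · intro l m hlm
    have h1 : (Tc z l).eval x₀ = (Tc z m).eval x₀ := neg_injective hlm
    have h2 := (hT l).trans (hT m).symm
    rw [h1] at h2
    have h3 := mul_right_cancel₀ (hne m) h2
    exact hz (by linear_combination -h3)
  · rw [← h, curv_eq]
    ext1 x y
    simp only [Matrix.map_apply]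
    have h4 : ((evalRingHom x₀).comp (th z : MvPolynomial ι k →+* k[X])) =
        MvPolynomial.eval (fun l => -(Tc z l).eval x₀) := by
      apply MvPolynomial.ringHom_ext
      · intro c
        simp [th]
      · intro l
        rw [RingHom.comp_apply, MvPolynomial.eval_X]
        show eval x₀ (th z (MvPolynomial.X l)) = _
        rw [th, MvPolynomial.aeval_X, eval_neg]
    exact (congrArg (fun g : MvPolynomial ι k →+* k => g (P A p x y)) h4).symm

lemma P_of_curv {k : Type*} [Field k] {p : ℕ} (hp : p.Prime) [CharP k p]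
    (A : ι → Matrix r r k) (hKZ : KZType A) (z : ι → k)
    (hz : Function.Injective z) (h : curv A z p = 0) : P A p = 0 := by
  classical
  let K := AlgebraicClosure k
  let φ : k →+* K := algebraMap k K
  have hcK : CharP K p := charP_of_injective_algebraMap φ.injective p
  obtain ⟨x₀, hx₀⟩ := Infinite.exists_notMem_finset (Finset.univ.image fun i => φ (z i))
  have h1 : curv (fun i => (A i).map φ) (fun i => φ (z i)) p = 0 := by
    rw [curv_map, h]
    ext; simp
  have h2 := P_of_point hp (fun i => (A i).map φ) (hKZ.map φ)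
    (fun i => residue_of_curv _ _ (φ.injective.comp hz) h1 i) (fun i => φ (z i))
    (φ.injective.comp hz) x₀ (fun i hi => hx₀ (Finset.mem_image.mpr ⟨i, Finset.mem_univ _, hi.symm⟩))
    (by rw [h1]; ext; simp)
  rw [P_map] at h2
  ext1 x y
  have h3 := congrFun (congrFun h2 x) y
  rw [Matrix.map_apply, Matrix.zero_apply] at h3
  rw [Matrix.zero_apply]
  exact (map_eq_zero_iff _ (MvPolynomial.map_injective φ φ.injective)).mp h3

/-- The global statement. -/
theorem main {R : Type u} [CommRing R] [IsDomain R] [CharZero R] [Algebra.FiniteType ℤ R]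
    {ι : Type v} [Fintype ι] [DecidableEq ι] {n : ℕ} (A : ι → Matrix (Fin n) (Fin n) R)
    (hKZ : KZType A) (z₀ : ι → R) (hz : Function.Injective z₀)
    (h : AlmostAll R (fun 𝔪 p => curv (fun i => (A i).map (Ideal.Quotient.mk 𝔪))
          (fun i => Ideal.Quotient.mk 𝔪 (z₀ i)) p = 0) ∨
      (∀ i, DiagRat (A i)) ∧ ∃ x₀ : R, (∀ i, x₀ ≠ z₀ i) ∧
        AlmostAll R (fun 𝔪 p => (curv (fun i => (A i).map (Ideal.Quotient.mk 𝔪))
          (fun i => Ideal.Quotient.mk 𝔪 (z₀ i)) p).map
            (Polynomial.eval (Ideal.Quotient.mk 𝔪 x₀)) = 0)) :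
    AlmostAll R (fun 𝔪 p => ∀ (k : Type w) [Field k] (φ : R ⧸ 𝔪 →+* k) (z : ι → k),
      curv (fun i => (A i).map fun x => φ (Ideal.Quotient.mk 𝔪 x)) z p = 0) ∧
    ∀ I : Finset ι, DiagRat (∑ i ∈ I, A i) := by
  classical
  have hP : ∃ g : R, g ≠ 0 ∧ ∀ 𝔪 : Ideal R, 𝔪.IsMaximal → g ∉ 𝔪 → ∀ p : ℕ, p.Prime →
      (p : R) ∈ 𝔪 → P (fun i => (A i).map (Ideal.Quotient.mk 𝔪)) p = 0 := by
    -- distinct points
    set d : R := ∏ st ∈ (Finset.univ : Finset ι).offDiag, (z₀ st.1 - z₀ st.2) with hd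
    have hd0 : d ≠ 0 := by
      rw [hd, Finset.prod_ne_zero_iff]
      intro st hst
      rw [Finset.mem_offDiag] at hst
      exact sub_ne_zero.mpr fun h' => hst.2.2 (hz h')
    have hinj : ∀ 𝔪 : Ideal R, d ∉ 𝔪 → Function.Injective fun i => Ideal.Quotient.mk 𝔪 (z₀ i) := by
      intro 𝔪 hdm i j hij
      by_contra hne
      apply hdm
      rw [← Ideal.Quotient.eq_zero_iff_mem, hd, map_prod,
        Finset.prod_eq_zero (i := (i, j)) (Finset.mem_offDiag.mpr
          ⟨Finset.mem_univ _, Finset.mem_univ _, hne⟩)]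
      rw [map_sub]
      exact sub_eq_zero.mpr hij
    rcases h with ⟨g, hg, h⟩ | ⟨hA, x₀, hx₀, g, hg, h⟩
    · refine ⟨g * d, mul_ne_zero hg hd0, fun 𝔪 hmax hgm p hp hpm => ?_⟩
      let ifld : Field (R ⧸ 𝔪) := Ideal.Quotient.field 𝔪
      have hcp : CharP (R ⧸ 𝔪) p := Pool.Agent.TH295.FO.charP_quot' 𝔪 hp hpm
      exact P_of_curv hp _ (hKZ.map _) _ (hinj 𝔪 fun h' => hgm (𝔪.mul_mem_left _ h'))
        (h 𝔪 hmax (fun h' => hgm (𝔪.mul_mem_right _ h')) p hp hpm)
    · choose e he he' using fun i => diag_mod.{u} (hA i)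
      set d' : R := ∏ i, (x₀ - z₀ i) with hd'
      have hd'0 : d' ≠ 0 := Finset.prod_ne_zero_iff.mpr fun i _ => sub_ne_zero.mpr (hx₀ i)
      set e' : R := ∏ i, e i with he''
      have he'0 : e' ≠ 0 := Finset.prod_ne_zero_iff.mpr fun i _ => he i
      refine ⟨g * (d * (d' * e')), mul_ne_zero hg (mul_ne_zero hd0 (mul_ne_zero hd'0 he'0)),
        fun 𝔪 hmax hgm p hp hpm => ?_⟩
      let ifld : Field (R ⧸ 𝔪) := Ideal.Quotient.field 𝔪
      have hcp : CharP (R ⧸ 𝔪) p := Pool.Agent.TH295.FO.charP_quot' 𝔪 hp hpm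
      have hdm : d ∉ 𝔪 := fun h' => hgm (𝔪.mul_mem_left _ (𝔪.mul_mem_right _ h'))
      have hd'm : d' ∉ 𝔪 := fun h' => hgm (𝔪.mul_mem_left _ (𝔪.mul_mem_left _
        (𝔪.mul_mem_right _ h')))
      have hem : e' ∉ 𝔪 := fun h' => hgm (𝔪.mul_mem_left _ (𝔪.mul_mem_left _
        (𝔪.mul_mem_left _ h')))
      refine P_of_point hp _ (hKZ.map _) (fun i => ?_) _ (hinj 𝔪 hdm)
        (Ideal.Quotient.mk 𝔪 x₀) (fun i hi => ?_)
        (h 𝔪 hmax (fun h' => hgm (𝔪.mul_mem_right _ h')) p hp hpm)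
      · refine he' i (R ⧸ 𝔪) (Ideal.Quotient.mk 𝔪) p hp hcp fun h0 => hem ?_
        rw [Ideal.Quotient.eq_zero_iff_mem] at h0
        rw [he'', ← Finset.mul_prod_erase _ _ (Finset.mem_univ i)]
        exact 𝔪.mul_mem_right _ h0
      · apply hd'm
        rw [hd', ← Finset.mul_prod_erase _ _ (Finset.mem_univ i)]
        apply 𝔪.mul_mem_right
        rw [← Ideal.Quotient.eq_zero_iff_mem, map_sub]
        exact sub_eq_zero.mpr hi
  obtain ⟨g, hg, hP⟩ := hP
  refine ⟨⟨g, hg, fun 𝔪 hmax hgm p hp hpm k _ φ z => ?_⟩, fun I => ?_⟩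
  · have h1 := hP 𝔪 hmax hgm p hp hpm
    have h2 : (fun i => (A i).map fun x => φ (Ideal.Quotient.mk 𝔪 x)) =
        fun i => ((A i).map (Ideal.Quotient.mk 𝔪)).map φ := by
      funext i
      rw [Matrix.map_map]
      rfl
    rw [h2, curv_eq, P_map, h1]
    ext; simp
  · refine diag_of_mod _ hg fun 𝔪 hmax hgm p hp hpm => ?_
    have h1 := P_eval (fun i => (A i).map (Ideal.Quotient.mk 𝔪)) I p
    rw [hP 𝔪 hmax hgm p hp hpm] at h1
    have h2 : (∑ i ∈ I, A i).map (Ideal.Quotient.mk 𝔪) =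
        ∑ i ∈ I, (A i).map (Ideal.Quotient.mk 𝔪) := by
      ext1 x y
      simp only [Matrix.map_apply, Matrix.sum_apply, map_sum]
    rw [h2, hh, ← h1]
    ext; simp

end Pool.Agent.X98.KZ
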