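import Mathlib

set_option autoImplicit false

/-!
# The p-curvature of Fuchsian systems of KZ type
-/

namespace Pool.Agent.X98.KZ

variable {ι : Type*} [Fintype ι] [DecidableEq ι] {r : Type*} [Fintype r] [DecidableEq r]

/-- Residues of KZ type. -/
def KZType {R : Type*} [CommRing R] (A : ι → Matrix r r R) : Prop :=
  ∀ i j, i ≠ j → ∃ W : Matrix r r R, (∀ l, l ≠ i → l ≠ j → W * A l = A l * W) ∧
    W * (A i + A j) = (A i + A j) * W ∧ (A j + W) * A i = A i * (A j + W)

section poly

open MvPolynomial

variable {k : Type*} [CommRing k]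

omit [DecidableEq ι] in
lemma sum_app {S : Type*} [CommRing S] [Algebra k S] (D : ι → Derivation k S S) (f : S) :
    (∑ i, D i) f = ∑ i, D i f := by
  have h1 : ∀ s : Finset ι, (∑ i ∈ s, D i) f = ∑ i ∈ s, D i f := by
    classical
    intro s
    induction s using Finset.induction_on with
    | empty => simp
    | insert i s hi ih => rw [Finset.sum_insert hi, Finset.sum_insert hi, Derivation.add_apply, ih]
  exact h1 _

/-- The vector field. -/
noncomputable def V : Derivation k (MvPolynomial ι k) (MvPolynomial ι k) :=
  mkDerivation k (fun i => X i ^ 2)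

lemma V_apply (f : MvPolynomial ι k) : V f = ∑ i, X i ^ 2 * pderiv i f := by
  have h : (V : Derivation k (MvPolynomial ι k) (MvPolynomial ι k)) =
      ∑ i, (X i ^ 2 : MvPolynomial ι k) • pderiv i := by
    apply MvPolynomial.derivation_ext
    intro j
    rw [V, mkDerivation_X, sum_app, Finset.sum_eq_single j]
    · simp
    · intro i _ hi
      rw [Derivation.smul_apply, pderiv_X_of_ne hi.symm, smul_zero]
    · intro h; exact absurd (Finset.mem_univ _) h
  rw [h, sum_app]
  exact Finset.sum_congr rfl fun i _ => by rw [Derivation.smul_apply, smul_eq_mul]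

/-- The universal matrices. -/
noncomputable def P (A : ι → Matrix r r k) : ℕ → Matrix r r (MvPolynomial ι k)
  | 0 => 1
  | j + 1 => (P A j).map V + (∑ i, (X i : MvPolynomial ι k) • (A i).map C) * P A j

lemma V_homog {f : MvPolynomial ι k} {j : ℕ} (h : f.IsHomogeneous j) :
    (V f).IsHomogeneous (j + 1) := by
  rw [V_apply]
  apply IsHomogeneous.sum
  intro i _
  rcases j with _ | j
  · rw [← totalDegree_zero_iff_isHomogeneous, totalDegree_eq_zero_iff_eq_C] at h
    rw [h, pderiv_C, mul_zero]
    exact isHomogeneous_zero _ _ _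
  · have h1 : (X i ^ 2 * pderiv i f : MvPolynomial ι k).IsHomogeneous (2 + (j + 1 - 1)) :=
      (by simpa using (isHomogeneous_X k i).pow 2 : (X i ^ 2 : MvPolynomial ι k).IsHomogeneous 2).mul
        h.pderiv
    have h2 : 2 + (j + 1 - 1) = j + 1 + 1 := by omega
    rw [h2] at h1
    exact h1

lemma P_homog (A : ι → Matrix r r k) (j : ℕ) (a b : r) : (P A j a b).IsHomogeneous j := by
  induction j generalizing a b with
  | zero =>
    rw [P, Matrix.one_apply]
    split_ifs
    · exact isHomogeneous_one _ _
    · exact isHomogeneous_zero _ _ _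
  | succ j ih =>
    rw [P, Matrix.add_apply, Matrix.map_apply]
    refine (V_homog (ih a b)).add ?_
    rw [Matrix.mul_apply]
    refine IsHomogeneous.sum _ _ _ fun c _ => ?_
    rw [Matrix.sum_apply, Finset.sum_mul]
    refine IsHomogeneous.sum _ _ _ fun i _ => ?_
    rw [Matrix.smul_apply, smul_eq_mul, Matrix.map_apply]
    have h1 : (X i * C (A i a c) * P A j c b : MvPolynomial ι k).IsHomogeneous (1 + 0 + j) :=
      ((isHomogeneous_X k i).mul (isHomogeneous_C _ _)).mul (ih c b)
    have h2 : 1 + 0 + j = j + 1 := by omega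
    rw [h2] at h1
    exact h1

/-- The value at the characteristic function of a subset. -/
lemma eval_V (I : Finset ι) {f : MvPolynomial ι k} {j : ℕ} (h : f.IsHomogeneous j) :
    eval (fun i => if i ∈ I then (1 : k) else 0) (V f) =
      j * eval (fun i => if i ∈ I then (1 : k) else 0) f := by
  rw [V_apply, map_sum]
  have h1 := congrArg (eval (fun i => if i ∈ I then (1 : k) else 0)) h.sum_X_mul_pderiv
  rw [map_sum, map_nsmul, nsmul_eq_mul] at h1
  rw [← h1]
  refine Finset.sum_congr rfl fun i _ => ?_
  rw [map_mul, map_mul, map_pow, eval_X]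
  split_ifs <;> simp

lemma P_eval (A : ι → Matrix r r k) (I : Finset ι) (j : ℕ) :
    (P A j).map (eval (fun i => if i ∈ I then (1 : k) else 0)) =
      Polynomial.aeval (∑ i ∈ I, A i) (∏ m ∈ Finset.range j, (Polynomial.X + Polynomial.C (m : k))) := by
  set e := eval (fun i => if i ∈ I then (1 : k) else 0) with he
  induction j with
  | zero =>
    rw [P, Finset.range_zero, Finset.prod_empty, map_one, Matrix.map_one _ (map_zero e) (map_one e)]
  | succ j ih =>
    rw [Finset.prod_range_succ, mul_comm, map_mul, ← ih, P, Matrix.map_add _ (map_add e)]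
    have h1 : ((P A j).map V).map e = (j : k) • (P A j).map e := by
      ext a b
      rw [Matrix.map_apply, Matrix.map_apply, Matrix.smul_apply, Matrix.map_apply, he,
        eval_V I (P_homog A j a b), smul_eq_mul]
    have h2 : (∑ i, (X i : MvPolynomial ι k) • (A i).map C).map e = ∑ i ∈ I, A i := by
      ext a b
      rw [Matrix.map_apply, Matrix.sum_apply, map_sum, Matrix.sum_apply,
        ← Finset.sum_filter_add_sum_filter_not Finset.univ (· ∈ I)]
      have h3 : ∑ x ∈ Finset.univ.filter (fun x => ¬ x ∈ I),
          e (((X x : MvPolynomial ι k) • (A x).map C) a b) = 0 := by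
        refine Finset.sum_eq_zero fun x hx => ?_
        rw [Finset.mem_filter] at hx
        rw [Matrix.smul_apply, smul_eq_mul, map_mul, he, eval_X, if_neg hx.2, zero_mul]
      rw [h3, add_zero]
      have h4 : Finset.univ.filter (fun x => x ∈ I) = I := by ext; simp
      rw [h4]
      refine Finset.sum_congr rfl fun x hx => ?_
      rw [Matrix.smul_apply, smul_eq_mul, map_mul, he, eval_X, if_pos hx, one_mul,
        Matrix.map_apply, eval_C]
    rw [h1, Matrix.map_mul, h2, map_add, Polynomial.aeval_X, Polynomial.aeval_C, add_mul, add_comm,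
      Algebra.algebraMap_eq_smul_one, smul_mul_assoc, one_mul]

end poly

/-! ### The matrices of the system -/

section curv

open Polynomial

variable {k : Type*} [CommRing k]

/-- The product of the `x - z l`, `l ≠ i`. -/
noncomputable def Tc (z : ι → k) (i : ι) : k[X] := ∏ l ∈ Finset.univ.erase i, (X - C (z l))

/-- `T ^ j ∇ ^ j (1)` for `∇ = d / dx - ∑ A i / (x - z i)` and `T = ∏ (x - z i)`. -/
noncomputable def curv (A : ι → Matrix r r k) (z : ι → k) : ℕ → Matrix r r k[X]
  | 0 => 1
  | j + 1 => (∏ l, (X - C (z l))) • (curv A z j).map (fun f => derivative f) -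
      ((j : k[X]) * derivative (∏ l, (X - C (z l)))) • curv A z j -
      (∑ i, Tc z i • (A i).map C) * curv A z j

/-- The substitution. -/
noncomputable def th (z : ι → k) : MvPolynomial ι k →ₐ[k] k[X] :=
  MvPolynomial.aeval (fun i => -Tc z i)

lemma T_eq (z : ι → k) (i : ι) : ∏ l, (X - C (z l)) = (X - C (z i)) * Tc z i :=
  (Finset.mul_prod_erase _ _ (Finset.mem_univ i)).symm

lemma deriv_th (z : ι → k) (f : MvPolynomial ι k) :
    derivative (th z f) = ∑ i, -derivative (Tc z i) * th z (MvPolynomial.pderiv i f) := by
  induction f using MvPolynomial.induction_on with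
  | C a => simp [th]
  | add p q hp hq =>
    simp only [map_add, hp, hq, mul_add, Finset.sum_add_distrib]
  | mul_X p j hp =>
    rw [map_mul, derivative_mul, hp]
    have h1 : ∀ i, th z (MvPolynomial.pderiv i (p * MvPolynomial.X j)) =
        th z (MvPolynomial.pderiv i p) * (-Tc z j) + th z p * (if i = j then 1 else 0) := by
      intro i
      rw [Derivation.leibniz, smul_eq_mul, smul_eq_mul, map_add, map_mul, map_mul]
      have h2 : th z (MvPolynomial.X j) = -Tc z j := MvPolynomial.aeval_X _ _
      rw [h2]
      by_cases h : i = j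
      · subst h
        rw [MvPolynomial.pderiv_X_self, map_one, if_pos rfl]
        ring
      · rw [MvPolynomial.pderiv_X_of_ne (Ne.symm h), map_zero, if_neg h]
        ring
    have h2 : th z (MvPolynomial.X j) = -Tc z j := MvPolynomial.aeval_X _ _
    simp only [h1, h2, mul_add, Finset.sum_add_distrib, derivative_neg]
    congr 1
    · rw [Finset.sum_mul]
      exact Finset.sum_congr rfl fun i _ => by ring
    · rw [Finset.sum_eq_single j]
      · rw [if_pos rfl]; ring
      · intro i _ hi
        rw [if_neg hi]; ring
      · intro h; exact absurd (Finset.mem_univ _) h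

lemma th_V (z : ι → k) {f : MvPolynomial ι k} {j : ℕ} (h : f.IsHomogeneous j) :
    th z (V f) = (∏ l, (X - C (z l))) * derivative (th z f) -
      ((j : k[X]) * derivative (∏ l, (X - C (z l)))) * th z f := by
  have h1 := congrArg (th z) h.sum_X_mul_pderiv
  rw [map_sum, map_nsmul, nsmul_eq_mul] at h1
  have h2 : (j : k[X]) * derivative (∏ l, (X - C (z l))) * th z f =
      derivative (∏ l, (X - C (z l))) * ∑ i, th z (MvPolynomial.X i * MvPolynomial.pderiv i f) := by
    rw [h1]; ring
  rw [h2, deriv_th, V_apply, map_sum, Finset.mul_sum, Finset.mul_sum, ← Finset.sum_sub_distrib]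
  refine Finset.sum_congr rfl fun i _ => ?_
  rw [map_mul, map_mul, map_pow]
  have h3 : th z (MvPolynomial.X i) = -Tc z i := MvPolynomial.aeval_X _ _
  rw [h3, T_eq z i, derivative_mul, derivative_X_sub_C]
  ring

lemma curv_eq (A : ι → Matrix r r k) (z : ι → k) (j : ℕ) : curv A z j = (P A j).map (th z) := by
  induction j with
  | zero => rw [curv, P, Matrix.map_one _ (map_zero _) (map_one _)]
  | succ j ih =>
    rw [curv, ih, P, Matrix.map_add _ (map_add _), Matrix.map_mul]
    have h1 : (∑ i, (MvPolynomial.X i : MvPolynomial ι k) • (A i).map MvPolynomial.C).map (th z) =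
        -∑ i, Tc z i • (A i).map C := by
      ext1 a b
      rw [Matrix.map_apply, Matrix.sum_apply, map_sum, Matrix.neg_apply, Matrix.sum_apply,
        ← Finset.sum_neg_distrib]
      refine Finset.sum_congr rfl fun i _ => ?_
      rw [Matrix.smul_apply, Matrix.smul_apply, smul_eq_mul, smul_eq_mul, map_mul,
        Matrix.map_apply, Matrix.map_apply]
      have h3 : th z (MvPolynomial.X i) = -Tc z i := MvPolynomial.aeval_X _ _
      have h4 : th z (MvPolynomial.C (A i a b)) = C (A i a b) := MvPolynomial.aeval_C _ _
      rw [h3, h4]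
      ring
    rw [h1]
    ext1 a b
    simp only [Matrix.sub_apply, Matrix.add_apply, Matrix.smul_apply, Matrix.map_apply, smul_eq_mul,
      Matrix.neg_mul, Matrix.neg_apply]
    rw [th_V z (P_homog A j a b)]
    ring

end curv

end Pool.Agent.X98.KZ
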