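import Pool.Agent.X98.KZ.Basic

set_option autoImplicit false

/-!
# Horizontality of the p-curvature
-/

namespace Pool.Agent.X98.KZ

variable {ι : Type*} [Fintype ι] [DecidableEq ι] {r : Type*} [Fintype r] [DecidableEq r]

/-- Leibniz rule for iterates of an operator. -/
lemma iter_leibniz {M : Type*} [Ring M] (F D : M → M) (hF : ∀ a b, F (a + b) = F a + F b)
    (hF0 : F 0 = 0)
    (h : ∀ a b, F (a * b) = F a * b + a * D b) (m : ℕ) (a b : M) :
    F^[m] (a * b) = ∑ ij ∈ Finset.HasAntidiagonal.antidiagonal m,
      (m.choose ij.1 : M) * (F^[ij.1] a * D^[ij.2] b) := by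
  have hsum : ∀ (s : Finset (ℕ × ℕ)) (f : ℕ × ℕ → M), F (∑ i ∈ s, f i) = ∑ i ∈ s, F (f i) := by
    intro s f
    classical
    induction s using Finset.induction_on with
    | empty => simpa using hF0
    | insert i s hi ih => rw [Finset.sum_insert hi, Finset.sum_insert hi, hF, ih]
  have hnat : ∀ (c : ℕ) (x : M), F ((c : M) * x) = (c : M) * F x := by
    intro c x
    induction c with
    | zero => simpa using hF0
    | succ c ih => rw [Nat.cast_succ, add_mul, hF, ih, add_mul, one_mul, one_mul]
  induction m with
  | zero => simp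
  | succ m ih =>
    rw [Function.iterate_succ_apply', ih, hsum]
    have h1 : ∀ x ∈ Finset.HasAntidiagonal.antidiagonal m, F ((m.choose x.1 : M) * (F^[x.1] a * D^[x.2] b)) =
        (m.choose x.1 : M) * (F^[x.1 + 1] a * D^[x.2] b) +
        (m.choose x.1 : M) * (F^[x.1] a * D^[x.2 + 1] b) := by
      intro x _
      rw [hnat, h, mul_add, Function.iterate_succ_apply', Function.iterate_succ_apply']
    rw [Finset.sum_congr rfl h1, Finset.sum_add_distrib]
    have h2 := Finset.sum_antidiagonal_choose_succ_mul (R := M)
      (fun i j => F^[i] a * D^[j] b) m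
    rw [h2, add_comm]
    congr 1
    refine Finset.sum_congr rfl fun x hx => ?_
    rw [Finset.HasAntidiagonal.mem_antidiagonal] at hx
    have h3 : m.choose x.1 = m.choose x.2 := by
      rw [← hx, Nat.choose_symm_add]
    rw [h3]

lemma iter_leibniz_char {M : Type*} [Ring M] (F D : M → M) (hF : ∀ a b, F (a + b) = F a + F b)
    (hF0 : F 0 = 0)
    (h : ∀ a b, F (a * b) = F a * b + a * D b) {p : ℕ} (hp : p.Prime) (hM : (p : M) = 0) (a b : M) :
    F^[p] (a * b) = F^[p] a * b + a * D^[p] b := by
  rw [iter_leibniz F D hF hF0 h, Finset.Nat.sum_antidiagonal_eq_sum_range_succ_mk,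
    Finset.sum_range_succ, Finset.sum_range_eq_add_Ico _ hp.pos]
  have h1 : ∑ j ∈ Finset.Ico 1 p, ((p.choose j : M) * (F^[j] a * D^[p - j] b)) = 0 := by
    refine Finset.sum_eq_zero fun j hj => ?_
    rw [Finset.mem_Ico] at hj
    obtain ⟨c, hc⟩ := hp.dvd_choose_self (by omega : j ≠ 0) hj.2
    rw [hc, Nat.cast_mul, hM, zero_mul, zero_mul]
  simp only [h1, add_zero, Nat.choose_self, Nat.choose_zero_right, Nat.cast_one, one_mul,
    Function.iterate_zero, id_eq, Nat.sub_zero, Nat.sub_self]
  rw [add_comm]

lemma mat_leibniz {R S : Type*} [CommRing R] [CommRing S] [Algebra R S] (D : Derivation R S S)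
    (Y Z : Matrix r r S) : (Y * Z).map D = Y.map D * Z + Y * Z.map D := by
  ext1 a b
  simp only [Matrix.map_apply, Matrix.mul_apply, Matrix.add_apply, map_sum,
    ← Finset.sum_add_distrib]
  refine Finset.sum_congr rfl fun c _ => ?_
  rw [Derivation.leibniz, smul_eq_mul, smul_eq_mul]
  ring

lemma mat_smul {R S : Type*} [CommRing R] [CommRing S] [Algebra R S] (D : Derivation R S S)
    (f : S) (Y : Matrix r r S) : (f • Y).map D = (D f) • Y + f • Y.map D := by
  ext1 a b
  simp only [Matrix.map_apply, Matrix.smul_apply, Matrix.add_apply, smul_eq_mul]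
  rw [Derivation.leibniz, smul_eq_mul, smul_eq_mul]
  ring

/-- The abstract form of the horizontality. -/
theorem horiz {R S : Type*} [CommRing R] [CommRing S] [Algebra R S] (D E : Derivation R S S)
    {p : ℕ} (hp : p.Prime) (hS : (p : S) = 0) (u : ι → S) (hu : ∀ i, D (u i) = u i ^ 2) (i : ι)
    (hE : ∀ j, E (u j) = if j = i then 1 else 0)
    (hED : ∀ f, E (D f) = D (E f) + 2 * u i * E f) (w : ι → S)
    (hw : ∀ j, j ≠ i → w j * (u j - u i) = 1) (A : ι → Matrix r r S)
    (hAD : ∀ j, (A j).map D = 0) (hAE : ∀ j, (A j).map E = 0)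
    (W : ι → Matrix r r S) (hWD : ∀ j, (W j).map D = 0)
    (hW1 : ∀ j, j ≠ i → ∀ l, l ≠ i → l ≠ j → W j * A l = A l * W j)
    (hW2 : ∀ j, j ≠ i → W j * (A i + A j) = (A i + A j) * W j)
    (hW3 : ∀ j, j ≠ i → (A j + W j) * A i = A i * (A j + W j)) :
    ∃ G : Matrix r r S, u i ^ 2 • ((fun Y : Matrix r r S => Y.map D + (∑ l, u l • A l) * Y)^[p] 1).map E =
      ((fun Y : Matrix r r S => Y.map D + (∑ l, u l • A l) * Y)^[p] 1) * G -
      G * ((fun Y : Matrix r r S => Y.map D + (∑ l, u l • A l) * Y)^[p] 1) := by
  set N : Matrix r r S := ∑ l, u l • A l with hN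
  set F : Matrix r r S → Matrix r r S := fun Y => Y.map D + N * Y with hF
  set g : ι → S := fun j => u i * u j * w j with hg
  set G : Matrix r r S := u i • A i + ∑ j ∈ Finset.univ.erase i, g j • W j with hG
  have hmadd : ∀ (D' : Derivation R S S) (Y Z : Matrix r r S), (Y + Z).map D' = Y.map D' + Z.map D' :=
    fun D' Y Z => Matrix.map_add _ (map_add D') Y Z
  have hmsum : ∀ (D' : Derivation R S S) (s : Finset ι) (f : ι → Matrix r r S),
      (∑ j ∈ s, f j).map D' = ∑ j ∈ s, (f j).map D' := by
    intro D' s f
    induction s using Finset.induction_on with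
    | empty => ext; simp
    | insert i s hi ih => rw [Finset.sum_insert hi, Finset.sum_insert hi, hmadd, ih]
  -- the constants
  have hDw : ∀ j, j ≠ i → D (g j) = 0 := by
    intro j hj
    have h1 := congrArg D (hw j hj)
    rw [Derivation.leibniz, smul_eq_mul, smul_eq_mul, map_sub, hu, hu, Derivation.map_one_eq_zero]
      at h1
    have h2 : D (w j) = -w j * (u j + u i) := by
      have h3 := congrArg (fun x => w j * x) h1
      simp only [mul_zero] at h3
      linear_combination (-w j * (u j + u i) - D (w j)) * hw j hj + h3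
    simp only [hg]
    rw [Derivation.leibniz, Derivation.leibniz, hu, hu, h2]
    simp only [smul_eq_mul]
    ring
  have hNE : N.map E = A i := by
    rw [hN, hmsum, Finset.sum_eq_single i]
    · rw [mat_smul, hE, if_pos rfl, one_smul, hAE, smul_zero, add_zero]
    · intro j _ hj
      rw [mat_smul, hE, if_neg hj, zero_smul, hAE, smul_zero, add_zero]
    · intro h; exact absurd (Finset.mem_univ _) h
  have hGD : G.map D = u i ^ 2 • A i := by
    rw [hG, hmadd, mat_smul, hu, hAD, smul_zero, add_zero, hmsum, Finset.sum_eq_zero, add_zero]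
    intro j hj
    rw [mat_smul, hDw j (Finset.ne_of_mem_erase hj), hWD, zero_smul, smul_zero, add_zero]
  clear_value N G
  have hNG : N * G = G * N := by
    have h1 : N * (u i • A i) - (u i • A i) * N =
        ∑ j ∈ Finset.univ.erase i, (u i * u j) • (A j * A i - A i * A j) := by
      rw [hN, ← Finset.add_sum_erase _ _ (Finset.mem_univ i), add_mul, mul_add, Finset.sum_mul,
        Finset.mul_sum, add_sub_add_left_eq_sub, ← Finset.sum_sub_distrib]
      refine Finset.sum_congr rfl fun j _ => ?_
      rw [smul_mul_smul_comm, smul_mul_smul_comm, mul_comm (u j), smul_sub]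
    have h2 : ∀ j ∈ Finset.univ.erase i, N * (g j • W j) - (g j • W j) * N =
        (u i * u j) • (A i * A j - A j * A i) := by
      intro j hj
      have hj' := Finset.ne_of_mem_erase hj
      have h3 : N = u i • A i + (u j • A j + ∑ l ∈ (Finset.univ.erase i).erase j, u l • A l) := by
        rw [hN, Finset.add_sum_erase (Finset.univ.erase i) (fun l => u l • A l) hj,
          Finset.add_sum_erase Finset.univ (fun l => u l • A l) (Finset.mem_univ i)]
      have h4 : (∑ l ∈ (Finset.univ.erase i).erase j, u l • A l) * (g j • W j) =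
          (g j • W j) * ∑ l ∈ (Finset.univ.erase i).erase j, u l • A l := by
        rw [Finset.sum_mul, Finset.mul_sum]
        refine Finset.sum_congr rfl fun l hl => ?_
        have hlj := Finset.ne_of_mem_erase hl
        have hli := Finset.ne_of_mem_erase (Finset.mem_of_mem_erase hl)
        rw [smul_mul_smul_comm, smul_mul_smul_comm, hW1 j hj' l hli hlj, mul_comm (u l)]
      have h5 : W j * A j = A i * W j + A j * W j - W j * A i := by
        have := hW2 j hj'
        rw [mul_add, add_mul] at this
        exact eq_sub_of_add_eq' this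
      have h6 : A j * A i + W j * A i = A i * A j + A i * W j := by
        have := hW3 j hj'
        rwa [add_mul, mul_add] at this
      have h7 : (g j) * (u i - u j) = -(u i * u j) := by
        simp only [hg]
        linear_combination (-(u i * u j)) * hw j hj'
      rw [h3, add_mul, add_mul, mul_add, mul_add, h4]
      have h8 : u i • A i * g j • W j + (u j • A j * g j • W j + g j • W j *
          ∑ l ∈ (Finset.univ.erase i).erase j, u l • A l) - (g j • W j * u i • A i +
          (g j • W j * u j • A j + g j • W j * ∑ l ∈ (Finset.univ.erase i).erase j, u l • A l)) =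
          (g j * (u i - u j)) • (A i * W j - W j * A i) := by
        simp only [smul_mul_smul_comm]
        rw [h5]
        module
      rw [h8, h7]
      have h9 : A i * W j - W j * A i = A j * A i - A i * A j := by
        rw [sub_eq_sub_iff_add_eq_add, add_comm, ← h6, add_comm]
      rw [h9]
      module
    have h3 : N * G - G * N = 0 := by
      rw [hG, mul_add, add_mul, Finset.mul_sum, Finset.sum_mul, add_sub_add_comm, h1,
        ← Finset.sum_sub_distrib, Finset.sum_congr rfl h2, ← Finset.sum_add_distrib]
      refine Finset.sum_eq_zero fun j _ => ?_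
      module
    exact sub_eq_zero.mp h3
  -- the commutation
  set Z : Matrix r r S → Matrix r r S := fun Y => u i ^ 2 • Y.map E + G * Y with hZ
  have hcomm : ∀ Y, Z (F Y) = F (Z Y) := by
    intro Y
    simp only [hZ, hF]
    rw [hmadd, hmadd, mat_smul, mat_leibniz, mat_leibniz, hGD, hNE, mul_add, mul_add]
    have h1 : (Y.map D).map E = (Y.map E).map D + (2 * u i) • Y.map E := by
      ext1 a b
      simp only [Matrix.map_apply, Matrix.add_apply, Matrix.smul_apply, smul_eq_mul]
      rw [hED]
    have h2 : D (u i ^ 2) = 2 * u i ^ 3 := by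
      rw [Derivation.leibniz_pow, hu]
      simp only [smul_eq_mul, nsmul_eq_mul]
      push_cast
      ring
    have h3 : G * (N * Y) = N * (G * Y) := by
      rw [← mul_assoc, ← mul_assoc, hNG]
    rw [h1, h2, h3, smul_mul_assoc, mul_smul_comm]
    module
  have hiter : ∀ m Y, Z (F^[m] Y) = F^[m] (Z Y) := by
    intro m
    induction m with
    | zero => intro Y; rfl
    | succ m ih =>
      intro Y
      rw [Function.iterate_succ_apply, Function.iterate_succ_apply, ih, hcomm]
  refine ⟨G, ?_⟩
  have h1 := hiter p 1
  have hone : (1 : Matrix r r S).map E = 0 := by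
    ext1 a b
    rw [Matrix.map_apply, Matrix.one_apply]
    split_ifs <;> simp
  have h2 : Z 1 = 1 * G := by
    simp only [hZ]
    rw [hone, smul_zero, zero_add, mul_one, one_mul]
  have hpM : (p : Matrix r r S) = 0 := by
    have : ((p : ℕ) : Matrix r r S) = Matrix.diagonal fun _ => (p : S) := by
      rw [← Matrix.diagonal_natCast]
    rw [this, hS, Matrix.diagonal_zero]
  rw [h2, iter_leibniz_char F (fun Y => Y.map D) (fun a b => by
      simp only [hF]; rw [hmadd, mul_add]; abel) (by
      simp only [hF]; rw [mul_zero, add_zero]; ext; simp) (fun a b => by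
      simp only [hF]; rw [mat_leibniz, add_mul, mul_assoc]; abel) hp hpM] at h1
  have h3 : ∀ m : ℕ, (fun Y : Matrix r r S => Y.map D)^[m + 1] G =
      ((m + 1).factorial : S) • u i ^ (m + 2) • A i := by
    intro m
    induction m with
    | zero => simp [hGD]
    | succ m ih =>
      rw [Function.iterate_succ_apply', ih, mat_smul, mat_smul, hAD, smul_zero, add_zero,
        Derivation.leibniz_pow, hu]
      have h4 : D (((m + 1).factorial : ℕ) : S) = 0 := D.map_natCast _
      rw [h4, zero_smul, zero_add, Nat.factorial_succ (m + 1)]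
      simp only [smul_eq_mul, nsmul_eq_mul, smul_smul]
      congr 1
      push_cast
      have h5 : m + 1 + 2 = m + 1 + 2 := rfl
      ring
  obtain ⟨q, hq⟩ : ∃ q, p = q + 1 := ⟨p - 1, by have := hp.pos; omega⟩
  have h4 : (fun Y : Matrix r r S => Y.map D)^[p] G = 0 := by
    rw [hq, h3]
    have h5 : (((q + 1).factorial : ℕ) : S) = 0 := by
      rw [Nat.factorial_succ, Nat.cast_mul, ← hq, hS, zero_mul]
    rw [h5, zero_smul]
  rw [h4, mul_zero, add_zero] at h1
  simp only [hZ] at h1
  exact eq_sub_of_add_eq h1

end Pool.Agent.X98.KZ
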