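import Pool.Agent.X98.KZ.Horiz

set_option autoImplicit false

/-!
# Vanishing of the p-curvature at one point
-/

namespace Pool.Agent.X98.KZ

open MvPolynomial

variable {ι : Type*} [Fintype ι] [DecidableEq ι] {r : Type*} [Fintype r] [DecidableEq r]

/-- Translations commute with the derivations. -/
lemma pderiv_shift {k : Type*} [CommRing k] (b : ι → k) (i : ι) (f : MvPolynomial ι k) :
    pderiv i (aeval (fun j => (X j + C (b j) : MvPolynomial ι k)) f) =
      aeval (fun j => (X j + C (b j) : MvPolynomial ι k)) (pderiv i f) := by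
  induction f using MvPolynomial.induction_on with
  | C c => simp
  | add f g hf hg => simp only [map_add, hf, hg]
  | mul_X f j hf =>
    rw [map_mul, Derivation.leibniz, Derivation.leibniz, hf, aeval_X, map_add, pderiv_C, add_zero]
    simp only [smul_eq_mul, map_add, map_mul, aeval_X]
    by_cases h : j = i
    · subst h
      rw [pderiv_X_self, map_one]
    · rw [pderiv_X_of_ne h, map_zero]

lemma shift_degree {k : Type*} [CommRing k] (b : ι → k) (f : MvPolynomial ι k) :
    (aeval (fun j => (X j + C (b j) : MvPolynomial ι k)) f).totalDegree ≤ f.totalDegree := by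
  conv_lhs => rw [f.as_sum, map_sum]
  refine (totalDegree_finsetSum _ _).trans (Finset.sup_le fun α hα => ?_)
  rw [aeval_monomial]
  refine (totalDegree_mul _ _).trans ?_
  have h1 : (algebraMap k (MvPolynomial ι k) (coeff α f)).totalDegree = 0 := totalDegree_C _
  rw [h1, zero_add, Finsupp.prod]
  refine (totalDegree_finsetProd _ _).trans ?_
  refine le_trans ?_ (le_totalDegree hα)
  rw [Finsupp.sum]
  refine Finset.sum_le_sum fun j _ => (totalDegree_pow _ _).trans ?_
  have h2 : (X j + C (b j) : MvPolynomial ι k).totalDegree ≤ 1 := by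
    refine (totalDegree_add _ _).trans (max_le ?_ ?_)
    · refine (totalDegree_monomial_le _ _).trans ?_
      simp
    · rw [totalDegree_C]; exact Nat.zero_le _
  calc α j * (X j + C (b j) : MvPolynomial ι k).totalDegree ≤ α j * 1 := Nat.mul_le_mul_left _ h2
    _ = α j := mul_one _

/-- A homogeneous polynomial of degree `p` with vanishing derivatives. -/
lemma eq_zero_of_pderiv {k : Type*} [Field k] {p : ℕ} (hp : p.Prime) [CharP k p]
    {f : MvPolynomial ι k} (hf : f.IsHomogeneous p) (hd : ∀ i, pderiv i f = 0)
    (he : ∀ i, eval (fun j => if j ∈ ({i} : Finset ι) then (1 : k) else 0) f = 0) : f = 0 := by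
  ext α
  rw [coeff_zero]
  by_contra hα
  have hdeg : ∑ j, α j = p := by
    have h1 := hf hα
    rw [Finsupp.weight_apply, Finsupp.sum_fintype _ _ (by simp)] at h1
    simpa using h1
  have hdvd : ∀ i, p ∣ α i := by
    intro i
    rcases Nat.eq_zero_or_pos (α i) with h0 | h0
    · rw [h0]; exact dvd_zero _
    · have h1 := congrArg (coeff (α - Finsupp.single i 1)) (hd i)
      have h2 : α - Finsupp.single i 1 + Finsupp.single i 1 = α :=
        tsub_add_cancel_of_le (Finsupp.single_le_iff.mpr h0)
      rw [coeff_pderiv, coeff_zero, h2] at h1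
      rcases mul_eq_zero.mp h1 with h3 | h3
      · exact absurd h3 hα
      · have h4 : ((α i : ℕ) : k) = 0 := by
          rw [← h3, Finsupp.tsub_apply, Finsupp.single_eq_same]
          have : α i = (α i - 1) + 1 := by omega
          conv_lhs => rw [this]
          push_cast
          ring
        exact (CharP.cast_eq_zero_iff k p _).mp h4
  -- one of the exponents is positive
  obtain ⟨i, hi⟩ : ∃ i, α i ≠ 0 := by
    by_contra hcon
    push Not at hcon
    rw [Finset.sum_eq_zero fun j _ => hcon j] at hdeg
    exact hp.pos.ne hdeg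
  have hip : p ≤ α i := Nat.le_of_dvd (Nat.pos_of_ne_zero hi) (hdvd i)
  have hsum : α i + ∑ j ∈ Finset.univ.erase i, α j = p := by
    rw [Finset.add_sum_erase _ _ (Finset.mem_univ i)]; exact hdeg
  have hzero : ∀ j, j ≠ i → α j = 0 := by
    intro j hj
    have h1 : ∑ j ∈ Finset.univ.erase i, α j = 0 := by omega
    exact Finset.sum_eq_zero_iff.mp h1 j (Finset.mem_erase.mpr ⟨hj, Finset.mem_univ _⟩)
  have h1 := he i
  rw [eval_eq', Finset.sum_eq_single α] at h1
  · apply hα
    rw [Finset.prod_eq_one, mul_one] at h1
    · exact h1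
    · intro j _
      by_cases hj : j = i
      · subst hj
        rw [if_pos (Finset.mem_singleton_self _), one_pow]
      · rw [hzero j hj, pow_zero]
  · intro β hβ hne
    have hβ' : ∑ j, β j = p := by
      have h1 := hf (mem_support_iff.mp hβ)
      rw [Finsupp.weight_apply, Finsupp.sum_fintype _ _ (by simp)] at h1
      simpa using h1
    obtain ⟨j, hj, hj0⟩ : ∃ j, j ≠ i ∧ β j ≠ 0 := by
      by_contra hcon
      push Not at hcon
      apply hne
      ext j
      by_cases hj : j = i
      · subst hj
        have h2 : β j + ∑ l ∈ Finset.univ.erase j, β l = p := by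
          rw [Finset.add_sum_erase _ _ (Finset.mem_univ j)]; exact hβ'
        have h3 : ∑ l ∈ Finset.univ.erase j, β l = 0 :=
          Finset.sum_eq_zero fun l hl => hcon l (Finset.ne_of_mem_erase hl)
        have h4 : ∑ l ∈ Finset.univ.erase j, α l = 0 :=
          Finset.sum_eq_zero fun l hl => hzero l (Finset.ne_of_mem_erase hl)
        omega
      · rw [hzero j hj, hcon j hj]
    apply mul_eq_zero_of_right
    rw [Finset.prod_eq_zero (Finset.mem_univ j)]
    rw [if_neg (by rw [Finset.mem_singleton]; exact hj), zero_pow hj0]
  · intro h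
    rw [mem_support_iff, not_not] at h
    rw [h, zero_mul]

/-- The coordinates at the point. -/
noncomputable def U {k : Type*} [CommRing k] (a : ι → k) (j : ι) : MvPowerSeries ι k :=
  MvPowerSeries.X j + MvPowerSeries.C (a j)

/-- The vector field at the point. -/
noncomputable def Dh {k : Type*} [CommRing k] (a : ι → k) :
    Derivation k (MvPowerSeries ι k) (MvPowerSeries ι k) :=
  ∑ j, (U a j) ^ 2 • MvPowerSeries.pderiv k j

lemma Dh_apply {k : Type*} [CommRing k] (a : ι → k) (f : MvPowerSeries ι k) :
    Dh a f = ∑ j, (U a j) ^ 2 * MvPowerSeries.pderiv k j f := by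
  rw [Dh, sum_app]
  exact Finset.sum_congr rfl fun i _ => by rw [Derivation.smul_apply, smul_eq_mul]

lemma pderiv_U {k : Type*} [CommRing k] (a : ι → k) (i j : ι) :
    MvPowerSeries.pderiv k i (U a j) = if j = i then 1 else 0 := by
  rw [U, map_add, MvPowerSeries.pderiv_C, add_zero]
  split_ifs with h
  · subst h; exact MvPowerSeries.pderiv_X_self
  · exact MvPowerSeries.pderiv_X_of_ne h

lemma Dh_U {k : Type*} [CommRing k] (a : ι → k) (j : ι) : Dh a (U a j) = U a j ^ 2 := by
  rw [Dh_apply, Finset.sum_eq_single j]
  · rw [pderiv_U, if_pos rfl, mul_one]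
  · intro i _ hi
    rw [pderiv_U, if_neg (Ne.symm hi), mul_zero]
  · intro h; exact absurd (Finset.mem_univ _) h

lemma pderiv_comm {k : Type*} [CommRing k] (i j : ι) (f : MvPowerSeries ι k) :
    MvPowerSeries.pderiv k i (MvPowerSeries.pderiv k j f) =
      MvPowerSeries.pderiv k j (MvPowerSeries.pderiv k i f) := by
  ext n
  simp only [MvPowerSeries.coeff_pderiv]
  by_cases h : i = j
  · subst h; rfl
  · rw [Finsupp.add_apply, Finsupp.add_apply, Finsupp.single_eq_of_ne (Ne.symm h),
      Finsupp.single_eq_of_ne h, add_zero, add_zero, add_right_comm]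
    ring

lemma pderiv_Dh {k : Type*} [CommRing k] (a : ι → k) (i : ι) (f : MvPowerSeries ι k) :
    MvPowerSeries.pderiv k i (Dh a f) = Dh a (MvPowerSeries.pderiv k i f) +
      2 * U a i * MvPowerSeries.pderiv k i f := by
  rw [Dh_apply, Dh_apply, map_sum]
  have h1 : ∀ j, MvPowerSeries.pderiv k i (U a j ^ 2 * MvPowerSeries.pderiv k j f) =
      U a j ^ 2 * MvPowerSeries.pderiv k j (MvPowerSeries.pderiv k i f) +
        (if j = i then 2 * U a j * MvPowerSeries.pderiv k j f else 0) := by
    intro j
    rw [Derivation.leibniz, Derivation.leibniz_pow, pderiv_U, pderiv_comm]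
    split_ifs with h
    · simp only [smul_eq_mul, nsmul_eq_mul]
      push_cast
      ring
    · simp
  simp only [h1, Finset.sum_add_distrib]
  rw [Finset.sum_ite_eq' Finset.univ i, if_pos (Finset.mem_univ i)]

lemma tau_V {k : Type*} [CommRing k] (a : ι → k) (f : MvPolynomial ι k) :
    aeval (U a) (V f) = Dh a (aeval (U a) f) := by
  induction f using MvPolynomial.induction_on with
  | C c =>
    have h1 : (aeval (U a) (C c) : MvPowerSeries ι k) = algebraMap k _ c := aeval_C _ _
    have h2 : V (C c : MvPolynomial ι k) = 0 := by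
      have : (C c : MvPolynomial ι k) = algebraMap k _ c := rfl
      rw [this, Derivation.map_algebraMap]
    rw [h1, Derivation.map_algebraMap, h2, map_zero]
  | add f g hf hg => simp only [map_add, hf, hg]
  | mul_X f j hf =>
    have h1 : (V (X j) : MvPolynomial ι k) = X j ^ 2 := mkDerivation_X _ _ _
    have h2 : aeval (U a) (f * X j) = aeval (U a) f * U a j := by rw [map_mul, aeval_X]
    rw [h2, Derivation.leibniz, Derivation.leibniz, Dh_U, ← hf, h1]
    simp only [smul_eq_mul, map_add, map_mul, map_pow, aeval_X]

lemma tau_coe {k : Type*} [CommRing k] (a : ι → k) (f : MvPolynomial ι k) :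
    aeval (U a) f = ((aeval (fun j => (X j + C (a j) : MvPolynomial ι k)) f :
      MvPolynomial ι k) : MvPowerSeries ι k) := by
  induction f using MvPolynomial.induction_on with
  | C c =>
    rw [aeval_C, aeval_C]
    exact (MvPolynomial.coe_C _).symm
  | add f g hf hg => rw [map_add, map_add, hf, hg, MvPolynomial.coe_add]
  | mul_X f j hf =>
    rw [map_mul, map_mul, hf, MvPolynomial.coe_mul, aeval_X, aeval_X, MvPolynomial.coe_add,
      MvPolynomial.coe_X, MvPolynomial.coe_C]
    rfl

/-- If the p-curvature vanishes at one point, then all its partial derivatives vanish. -/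
theorem pderiv_eq_zero {k : Type*} [Field k] {p : ℕ} (hp : p.Prime) [CharP k p]
    (A : ι → Matrix r r k) (hKZ : KZType A) (a : ι → k) (ha0 : ∀ i, a i ≠ 0)
    (ha : Function.Injective a) (h0 : (P A p).map (eval a) = 0) (i : ι) (x y : r) :
    pderiv i (P A p x y) = 0 := by
  classical
  set S := MvPowerSeries ι k with hS
  set τ : MvPolynomial ι k →ₐ[k] S := aeval (U a) with hτ
  let Ah : ι → Matrix r r S := fun j => (A j).map (algebraMap k S)
  have hconst : ∀ (D : Derivation k S S) (M : Matrix r r k), (M.map (algebraMap k S)).map D = 0 := by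
    intro D M
    ext1 x y
    rw [Matrix.map_apply, Matrix.map_apply, Derivation.map_algebraMap]
    rfl
  have hmm : ∀ (M M' : Matrix r r k), M.map (algebraMap k S) * M'.map (algebraMap k S) =
      (M * M').map (algebraMap k S) := fun M M' => (Matrix.map_mul).symm
  have hma : ∀ (M M' : Matrix r r k), M.map (algebraMap k S) + M'.map (algebraMap k S) =
      (M + M').map (algebraMap k S) := fun M M' => (Matrix.map_add _ (map_add _) M M').symm
  have hpS : (p : S) = 0 := by
    have : ((p : ℕ) : S) = algebraMap k S (p : k) := (map_natCast _ _).symm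
    rw [this, CharP.cast_eq_zero, map_zero]
  -- the recursion
  have hP : ∀ m, (P A m).map τ =
      (fun Y : Matrix r r S => Y.map (Dh a) + (∑ l, U a l • Ah l) * Y)^[m] 1 := by
    intro m
    induction m with
    | zero => rw [P, Matrix.map_one _ (map_zero _) (map_one _)]; rfl
    | succ m ih =>
      rw [Function.iterate_succ_apply', ← ih, P, Matrix.map_add _ (map_add _), Matrix.map_mul]
      congr 1
      · ext1 x y
        simp only [Matrix.map_apply]
        exact tau_V a _
      · congr 1
        ext1 x y
        rw [Matrix.map_apply, Matrix.sum_apply, map_sum, Matrix.sum_apply]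
        refine Finset.sum_congr rfl fun l _ => ?_
        rw [Matrix.smul_apply, Matrix.smul_apply, smul_eq_mul, smul_eq_mul, map_mul,
          Matrix.map_apply]
        show τ (X l) * τ (C (A l x y)) = U a l * algebraMap k S (A l x y)
        rw [hτ, aeval_X, aeval_C]
  -- horizontality
  have hor : ∀ i, ∃ G : Matrix r r S, ((P A p).map τ).map (MvPowerSeries.pderiv k i) =
      (P A p).map τ * G - G * (P A p).map τ := by
    intro i
    have hWex : ∀ j, ∃ W : Matrix r r k, j ≠ i → (∀ l, l ≠ i → l ≠ j → W * A l = A l * W) ∧
        W * (A i + A j) = (A i + A j) * W ∧ (A j + W) * A i = A i * (A j + W) := by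
      intro j
      by_cases h : j = i
      · exact ⟨0, fun h' => absurd h h'⟩
      · obtain ⟨W, hW⟩ := hKZ i j (Ne.symm h)
        exact ⟨W, fun _ => hW⟩
    choose W hW using hWex
    obtain ⟨G, hG⟩ := horiz (Dh a) (MvPowerSeries.pderiv k i) hp hpS (U a) (Dh_U a) i
      (fun j => pderiv_U a i j) (pderiv_Dh a i) (fun j => (U a j - U a i)⁻¹) (by
        intro j hj
        apply MvPowerSeries.inv_mul_cancel
        rw [U, U]
        simp only [map_sub, map_add, MvPowerSeries.constantCoeff_X, MvPowerSeries.constantCoeff_C,
          zero_add]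
        exact sub_ne_zero.mpr fun h => hj (ha h))
      Ah (fun j => hconst _ _) (fun j => hconst _ _) (fun j => (W j).map (algebraMap k S))
      (fun j => hconst _ _) (by
        intro j hj l hl hlj
        rw [hmm, hmm, (hW j hj).1 l hl hlj]) (by
        intro j hj
        rw [hma, hmm, hmm, (hW j hj).2.1]) (by
        intro j hj
        rw [hma, hmm, hmm, (hW j hj).2.2])
    rw [← hP] at hG
    refine ⟨(U a i ^ 2)⁻¹ • G, ?_⟩
    have hu : (U a i ^ 2)⁻¹ * U a i ^ 2 = 1 := by
      apply MvPowerSeries.inv_mul_cancel
      rw [U]
      simp only [map_pow, map_add, MvPowerSeries.constantCoeff_X, MvPowerSeries.constantCoeff_C,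
        zero_add]
      exact pow_ne_zero _ (ha0 i)
    have h1 := congrArg (fun Y => (U a i ^ 2)⁻¹ • Y) hG
    simp only [smul_smul] at h1
    rw [hu, one_smul] at h1
    rw [h1, smul_sub, mul_smul_comm, smul_mul_assoc]
  -- the Taylor coefficients
  have hcoef : ∀ (n : ℕ) (α : ι →₀ ℕ), ∑ j, α j = n → (∀ j, α j < p) → ∀ x y,
      MvPowerSeries.coeff α (τ (P A p x y)) = 0 := by
    intro n
    induction n using Nat.strong_induction_on with
    | _ n ih =>
      intro α hαn hα x y
      by_cases h : α = 0
      · subst h
        rw [MvPowerSeries.coeff_zero_eq_constantCoeff_apply]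
        have h1 : MvPowerSeries.constantCoeff (τ (P A p x y)) = eval a (P A p x y) := by
          have h2 : (MvPowerSeries.constantCoeff : S →+* k).comp (τ : MvPolynomial ι k →+* S) =
              eval a := by
            apply MvPolynomial.ringHom_ext
            · intro c
              rw [RingHom.comp_apply, eval_C]
              show MvPowerSeries.constantCoeff (τ (C c)) = c
              rw [hτ, aeval_C]
              exact MvPowerSeries.constantCoeff_C _
            · intro j
              rw [RingHom.comp_apply, eval_X]
              show MvPowerSeries.constantCoeff (τ (X j)) = a j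
              rw [hτ, aeval_X, U]
              simp
          exact congrArg (fun g : MvPolynomial ι k →+* k => g (P A p x y)) h2
        rw [h1]
        exact congrFun (congrFun h0 x) y
      · obtain ⟨i, hi⟩ : ∃ i, α i ≠ 0 := by
          by_contra hcon
          push Not at hcon
          exact h (Finsupp.ext hcon)
        obtain ⟨G, hG⟩ := hor i
        have h1 := congrArg (MvPowerSeries.coeff (α - Finsupp.single i 1))
          (congrFun (congrFun hG x) y)
        have h2 : α - Finsupp.single i 1 + Finsupp.single i 1 = α :=
          tsub_add_cancel_of_le (Finsupp.single_le_iff.mpr (Nat.pos_of_ne_zero hi))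
        have hlt : ∀ β : ι →₀ ℕ, β ≤ α - Finsupp.single i 1 → ∑ j, β j < n ∧ ∀ j, β j < p := by
          intro β hβ
          have h3 : ∑ j, (α - Finsupp.single i 1 : ι →₀ ℕ) j + 1 = n := by
            rw [← hαn]
            conv_rhs => rw [← h2]
            simp only [Finsupp.add_apply, Finset.sum_add_distrib]
            congr 1
            simp [Finsupp.single_apply]
          have h4 : ∑ j, β j ≤ ∑ j, (α - Finsupp.single i 1 : ι →₀ ℕ) j :=
            Finset.sum_le_sum fun j _ => hβ j
          refine ⟨by omega, fun j => lt_of_le_of_lt ((hβ j).trans ?_) (hα j)⟩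
          rw [Finsupp.tsub_apply]
          exact Nat.sub_le _ _
        rw [Matrix.map_apply, Matrix.map_apply, MvPowerSeries.coeff_pderiv, h2,
          Matrix.sub_apply, map_sub, Matrix.mul_apply, Matrix.mul_apply, map_sum, map_sum] at h1
        rw [Finset.sum_eq_zero, Finset.sum_eq_zero, sub_zero] at h1
        · rcases mul_eq_zero.mp h1 with h3 | h3
          · exact h3
          · exfalso
            have h4 : ((α i : ℕ) : k) = 0 := by
              rw [← h3, Finsupp.tsub_apply, Finsupp.single_eq_same]
              have : α i = (α i - 1) + 1 := by omega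
              conv_lhs => rw [this]
              push_cast
              ring
            have h5 := (CharP.cast_eq_zero_iff k p _).mp h4
            exact absurd (Nat.le_of_dvd (Nat.pos_of_ne_zero hi) h5) (not_le.mpr (hα i))
        · intro c _
          rw [MvPowerSeries.coeff_mul]
          refine Finset.sum_eq_zero fun q hq => ?_
          rw [Finset.HasAntidiagonal.mem_antidiagonal] at hq
          have h3 := hlt q.2 (by rw [← hq]; exact le_add_self)
          rw [Matrix.map_apply, ih _ h3.1 q.2 rfl h3.2, mul_zero]
        · intro c _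
          rw [MvPowerSeries.coeff_mul]
          refine Finset.sum_eq_zero fun q hq => ?_
          rw [Finset.HasAntidiagonal.mem_antidiagonal] at hq
          have h3 := hlt q.1 (by rw [← hq]; exact le_self_add)
          rw [Matrix.map_apply, ih _ h3.1 q.1 rfl h3.2, zero_mul]
  -- the translated polynomial
  set f := P A p x y with hf
  set φf := aeval (fun j => (X j + C (a j) : MvPolynomial ι k)) f with hφf
  have hc : ∀ α : ι →₀ ℕ, (∀ j, α j < p) → coeff α φf = 0 := by
    intro α hα
    have h1 := hcoef _ α rfl hα x y
    rw [← hf, hτ, tau_coe, MvPolynomial.coeff_coe] at h1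
    exact h1
  have hdeg : φf.totalDegree ≤ p := (shift_degree a f).trans (P_homog A p x y).totalDegree_le
  have hpd : pderiv i φf = 0 := by
    ext β
    rw [coeff_pderiv, coeff_zero]
    by_cases h1 : ∀ j, (β + Finsupp.single i 1 : ι →₀ ℕ) j < p
    · rw [hc _ h1, zero_mul]
    · push Not at h1
      obtain ⟨j, hj⟩ := h1
      by_cases h2 : coeff (β + Finsupp.single i 1) φf = 0
      · rw [h2, zero_mul]
      · have h3 := (le_totalDegree (mem_support_iff.mpr h2)).trans hdeg
        rw [Finsupp.sum_fintype _ _ (by simp)] at h3
        have h4 : ∀ l, l ≠ j → (β + Finsupp.single i 1 : ι →₀ ℕ) l = 0 := by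
          intro l hl
          have h5 := Finset.add_sum_erase Finset.univ (fun l => (β + Finsupp.single i 1 : ι →₀ ℕ) l)
            (Finset.mem_univ j)
          have h6 : ∑ l ∈ Finset.univ.erase j, (β + Finsupp.single i 1 : ι →₀ ℕ) l = 0 := by
            omega
          exact Finset.sum_eq_zero_iff.mp h6 l (Finset.mem_erase.mpr ⟨hl, Finset.mem_univ _⟩)
        have hij : i = j := by
          by_contra hij
          have := h4 i hij
          rw [Finsupp.add_apply, Finsupp.single_eq_same] at this
          omega
        subst hij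
        have h5 : (β + Finsupp.single i 1 : ι →₀ ℕ) i = p := by
          apply le_antisymm _ hj
          exact (Finset.single_le_sum (f := fun l => (β + Finsupp.single i 1 : ι →₀ ℕ) l)
            (fun _ _ => Nat.zero_le _) (Finset.mem_univ i)).trans h3
        rw [Finsupp.add_apply, Finsupp.single_eq_same] at h5
        have h6 : ((β i : ℕ) : k) + 1 = 0 := by
          have := CharP.cast_eq_zero k p
          rw [← h5] at this
          push_cast at this
          exact this
        rw [h6, mul_zero]
  have hback : aeval (fun j => (X j + C (-a j) : MvPolynomial ι k)) φf = f := by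
    rw [hφf]
    have h1 : (aeval (fun j => (X j + C (-a j) : MvPolynomial ι k))).comp
        (aeval (fun j => (X j + C (a j) : MvPolynomial ι k))) =
        AlgHom.id k (MvPolynomial ι k) := by
      apply MvPolynomial.algHom_ext
      intro j
      simp
    exact congrArg (fun g : MvPolynomial ι k →ₐ[k] MvPolynomial ι k => g f) h1
  rw [← hback, pderiv_shift (fun j => -a j), hpd, map_zero]

/-- If the p-curvature vanishes at one point and the residues are killed by `X ^ p - X`, then it
vanishes. -/
theorem P_eq_zero {k : Type*} [Field k] {p : ℕ} (hp : p.Prime) [CharP k p]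
    (A : ι → Matrix r r k) (hKZ : KZType A) (a : ι → k) (ha0 : ∀ i, a i ≠ 0)
    (ha : Function.Injective a) (h0 : (P A p).map (eval a) = 0)
    (hA : ∀ i, Polynomial.aeval (A i)
      (∏ m ∈ Finset.range p, (Polynomial.X + Polynomial.C (m : k))) = 0) : P A p = 0 := by
  ext1 x y
  refine eq_zero_of_pderiv hp (P_homog A p x y) (fun i => pderiv_eq_zero hp A hKZ a ha0 ha h0 i x y)
    fun i => ?_
  have h1 := P_eval A {i} p
  rw [Finset.sum_singleton, hA i] at h1
  exact congrFun (congrFun h1 x) y

end Pool.Agent.X98.KZ
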